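import Pool.Agent.U516.P2.PkgDETA
import Pool.Agent.U516.P2.PkgDETB
import Pool.Agent.U516.P2.Explore
import Pool.Agent.U516.P2.PkgZI
import Pool.Agent.U516.P2.PkgCNT
import Pool.Agent.U516.P2.PkgTRC
import Pool.Agent.U516.P2.PkgRAT
import Pool.Agent.U516.AL.PkgCORE
import Pool.Agent.U516.AL.PkgNT
import Pool.Agent.U516.AL.PkgCOM
import Pool.Agent.U516.AL.PkgMIX1
import Pool.Agent.U516.AL.PkgSTEP
import Pool.Agent.U516.AL.PkgDEN
import Pool.Agent.U516.AL.PkgVAR2
import Pool.Agent.U516.AL.PkgFFP
import Pool.Agent.U516.AL.PkgSEC2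
import Pool.Agent.U516.AL.PkgFIN

/-!
MP_99279c_al.  There are nontrivial words `w_n` in two letters, of length at most `n ^ 3 (log n) ^ 6`
for large `n`, which are laws for almost all of `Sym(n)`: the proportion of the pairs `(g, h)` with
`w_n(g, h) = 1` tends to `1`.  The length known before is `n ^ 8 (log n) ^ O(1)`.

Proof.  Let `x, y` be uniform in `Sym(n)`.

* Almost surely some `x y ^ (2 i)`, `i ≤ log n`, has a cycle of length at least
  `(1 - (log n) ^ (-1/2)) n` (second moment; the correlations are character ratios of the powers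
  `y ^ (2 j)`, which have few fixed points).  So one of the `n log n` words
  `t_{i,m} = (x y ^ (2 i)) ^ m`, `m ≤ n`, has support at most `n / (log n) ^ (1/2)`.
* Positive words of length `O(log n)` move points almost uniformly, almost surely.  For one positive
  word `h` the support of the commutator of `t` with `h t h⁻¹` is at most `6 K |supp t| ^ 2 / n` up to
  probability `2 / K`.  With `K = (log n) ^ (1/4)` and `log log n` steps, with words `h_1, h_2, …` which
  do not depend on the pair `x, y` and on `i, m`, the support becomes empty.  The words `h_j` can be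
  chosen such that all the `n log n` iterated commutators are nontrivial elements of the free group.
* A balanced commutator of conjugates of these `M = n log n` words, each of length
  `ℓ = n (log n) ^ O(1)`, is nontrivial, trivial as soon as one of them is, and of length `O(M ^ 2 ℓ)`.
-/

namespace Pool.Agent.Results.MP_99279c_al.AlmostLaws
open Filter Topology

noncomputable section

/-- the value `w(g, h)` of the word `w` -/
def value {n : ℕ} (w : FreeGroup (Fin 2)) (g h : Equiv.Perm (Fin n)) : Equiv.Perm (Fin n) :=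
  FreeGroup.lift ![g, h] w

theorem result : ∃ w : ℕ → FreeGroup (Fin 2),
    (∀ᶠ n : ℕ in atTop, w n ≠ 1 ∧ ((w n).norm : ℝ) ≤ (n : ℝ) ^ 3 * Real.log n ^ 6) ∧
    Tendsto (fun n : ℕ => (Nat.card {p : Equiv.Perm (Fin n) × Equiv.Perm (Fin n) //
      value (w n) p.1 p.2 = 1} : ℝ) / (n.factorial : ℝ) ^ 2) atTop (𝓝 1) := by
  have hCNT := P2516.t_CNT P2516.t_DETA P2516.t_DETB (P2516.t_ZI P2516X.t_EXPLx)
  have hTRC := P2516.t_TRC hCNT
  have hSEC := AL516.t_SEC2 AL516.t_DEN AL516.t_VAR2 P2516.t_RAT AL516.t_FFP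
  obtain ⟨w, h1, h2⟩ := AL516.t_FIN (AL516.t_NT AL516.t_CORE) (AL516.t_COM AL516.t_CORE)
    (AL516.t_MIX1 hTRC) AL516.t_STEP hSEC
  refine ⟨w, h1, ?_⟩
  have hcard : ∀ n : ℕ, (Nat.card {p : Equiv.Perm (Fin n) × Equiv.Perm (Fin n) //
      value (w n) p.1 p.2 = 1} : ℝ) =
      (n.factorial : ℝ) ^ 2 - Nat.card {x : AL516.Pr n // AL516.ev x (w n) ≠ 1} := by
    intro n
    classical
    have e1 : Nat.card {p : Equiv.Perm (Fin n) × Equiv.Perm (Fin n) //
        value (w n) p.1 p.2 = 1} = Nat.card {x : AL516.Pr n // AL516.ev x (w n) = 1} := by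
      refine Nat.card_congr ((finTwoArrowEquiv (Equiv.Perm (Fin n))).symm.subtypeEquiv fun p => ?_)
      have : (finTwoArrowEquiv (Equiv.Perm (Fin n))).symm p = ![p.1, p.2] := rfl
      rw [this]
      exact Iff.rfl
    have e2 : Nat.card {x : AL516.Pr n // AL516.ev x (w n) = 1} +
        Nat.card {x : AL516.Pr n // AL516.ev x (w n) ≠ 1} = n.factorial ^ 2 := by
      rw [Nat.card_eq_fintype_card, Nat.card_eq_fintype_card]
      have e3 := Fintype.card_subtype_compl (fun x : AL516.Pr n => AL516.ev x (w n) = 1)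
      have e4 := Fintype.card_subtype_le (fun x : AL516.Pr n => AL516.ev x (w n) = 1)
      have e5 : Fintype.card (AL516.Pr n) = n.factorial ^ 2 := by
        rw [Fintype.card_fun, Fintype.card_fin, Fintype.card_perm, Fintype.card_fin]
      have e6 : Fintype.card {x : AL516.Pr n // AL516.ev x (w n) ≠ 1} =
          Fintype.card {x : AL516.Pr n // ¬ AL516.ev x (w n) = 1} := rfl
      omega
    rw [e1, eq_sub_iff_add_eq]
    exact_mod_cast e2
  rw [tendsto_order]
  constructor
  · intro a ha
    filter_upwards [h2 ((1 - a) / 2) (by linarith)] with n hn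
    have hf : (0 : ℝ) < (n.factorial : ℝ) ^ 2 := by positivity
    rw [hcard n, lt_div_iff₀ hf]
    nlinarith
  · intro a ha
    refine Eventually.of_forall fun n => ?_
    have hf : (0 : ℝ) < (n.factorial : ℝ) ^ 2 := by positivity
    rw [hcard n, div_lt_iff₀ hf]
    have : (0 : ℝ) ≤ Nat.card {x : AL516.Pr n // AL516.ev x (w n) ≠ 1} := Nat.cast_nonneg _
    nlinarith

end

end Pool.Agent.Results.MP_99279c_al.AlmostLaws
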